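import Pool.Agent.helper64.PB.SpecF

set_option autoImplicit false

namespace Pool.Agent.PB

open Finset Polynomial

theorem PCN_sec {K : Type} [Field K] [DecidableEq K] (c : ℕ) (B : Finset (K × K)) (hB : PF B)
    (hc : B.card ≤ c + 1) (v : K × K → K) : ∃ a : Fin (c + 1) → K, ∀ z ∈ B, pol a z.1 = v z := by
  have hinj : Set.InjOn (fun z : K × K => z.1) (B : Set (K × K)) := by
    intro z hz z' hz' h
    exact hB z hz z' hz' h
  refine ⟨fun i => (Lagrange.interpolate B (fun z => z.1) v).coeff i, fun z hz => ?_⟩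
  have h1 : eval z.1 (Lagrange.interpolate B (fun z : K × K => z.1) v) = v z :=
    Lagrange.eval_interpolate_at_node v hinj hz
  have h2 : (Lagrange.interpolate B (fun z : K × K => z.1) v).natDegree < c + 1 := by
    have h3 := Lagrange.degree_interpolate_lt (s := B) (v := fun z : K × K => z.1) v hinj
    have h4 : (Lagrange.interpolate B (fun z : K × K => z.1) v).degree < ((c + 1 : ℕ) : WithBot ℕ) :=
      lt_of_lt_of_le h3 (by exact_mod_cast hc)
    by_cases h0 : Lagrange.interpolate B (fun z : K × K => z.1) v = 0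
    · rw [h0]
      simp
    · exact (Polynomial.natDegree_lt_iff_degree_lt h0).2 h4
  rw [← h1, Polynomial.eval_eq_sum_range' h2]
  unfold pol
  rw [Finset.sum_range]

theorem PCN_add {K : Type} [Field K] (c : ℕ) (a b : Fin (c + 1) → K) (α : K) :
    pol (a + b) α = pol a α + pol b α := by
  unfold pol
  rw [← Finset.sum_add_distrib]
  refine Finset.sum_congr rfl fun i _ => ?_
  rw [Pi.add_apply]
  ring

theorem PCN : PCN_stmt := by
  intro K _ _ _ c B hB hc _
  classical
  choose s hs using fun v : K × K → K => PCN_sec c B hB hc v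
  have key : Fintype.card ({a : Fin (c + 1) → K // ∀ z ∈ B, gr a z = true} × (B → K)) ≤
      Fintype.card (Fin (c + 1) → K) := by
    refine Fintype.card_le_of_injective
      (fun p => p.1.1 + s (fun z => if h : z ∈ B then p.2 ⟨z, h⟩ else 0)) ?_
    rintro ⟨⟨a, ha⟩, v⟩ ⟨⟨a', ha'⟩, v'⟩ h
    dsimp only at h
    have hv : v = v' := by
      funext z
      obtain ⟨z, hz⟩ := z
      have e1 : pol (a + s (fun z => if h : z ∈ B then v ⟨z, h⟩ else 0)) z.1 =
          pol (a' + s (fun z => if h : z ∈ B then v' ⟨z, h⟩ else 0)) z.1 := by rw [h]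
      rw [PCN_add, PCN_add, hs _ z hz, hs _ z hz, dif_pos hz, dif_pos hz] at e1
      have e2 : z.2 = pol a z.1 := of_decide_eq_true (ha z hz)
      have e3 : z.2 = pol a' z.1 := of_decide_eq_true (ha' z hz)
      rw [← e2, ← e3] at e1
      exact add_left_cancel e1
    subst hv
    have ha2 : a = a' := add_right_cancel h
    subst ha2
    rfl
  rw [Fintype.card_prod, Fintype.card_subtype, Fintype.card_fun, Fintype.card_fun, Fintype.card_fin,
    Fintype.card_coe] at key
  exact key

end Pool.Agent.PB
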