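import Pool.Agent.helper64.PB.SpecL

set_option autoImplicit false

namespace Pool.Agent.PB

theorem QNU_nat (c n e : ℕ) (hc : 1 ≤ c) (hn0 : c * 2 ^ 16 * (c * 2 ^ 33) ^ 16 ≤ n)
    (hn : n < c * 2 ^ (16 * (e + 1))) : c + 1 < 2 ^ e ∧ n ≤ (2 ^ e - (c + 1)) ^ 17 := by
  have h1 : c * 2 ^ (16 * (e + 1)) = c * 2 ^ 16 * (2 ^ e) ^ 16 := by
    rw [← pow_mul]
    ring
  rw [h1] at hn
  generalize 2 ^ e = E at hn ⊢
  have hE : c * 2 ^ 33 < E := by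
    by_contra hcon
    have h2 : E ^ 16 ≤ (c * 2 ^ 33) ^ 16 := Nat.pow_le_pow_left (not_lt.1 hcon) 16
    have h3 : c * 2 ^ 16 * E ^ 16 ≤ c * 2 ^ 16 * (c * 2 ^ 33) ^ 16 := Nat.mul_le_mul_left _ h2
    omega
  have hE2 : 2 * (c + 1) ≤ E := by omega
  refine ⟨by omega, ?_⟩
  have h4 : E ≤ 2 * (E - (c + 1)) := by omega
  have h5 : E ^ 17 ≤ (2 * (E - (c + 1))) ^ 17 := Nat.pow_le_pow_left h4 17
  have h6 : (c * 2 ^ 33) * E ^ 16 ≤ E * E ^ 16 := Nat.mul_le_mul_right _ hE.le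
  have h7 : E * E ^ 16 = E ^ 17 := by ring
  have h8 : (2 * (E - (c + 1))) ^ 17 = 2 ^ 17 * (E - (c + 1)) ^ 17 := by rw [mul_pow]
  have h9 : (c * 2 ^ 33) * E ^ 16 = 2 ^ 17 * (c * 2 ^ 16 * E ^ 16) := by ring
  have h10 : 2 ^ 17 * (c * 2 ^ 16 * E ^ 16) ≤ 2 ^ 17 * (E - (c + 1)) ^ 17 := by
    rw [← h9, ← h8]
    exact (h6.trans h7.le).trans h5
  have h11 : c * 2 ^ 16 * E ^ 16 ≤ (E - (c + 1)) ^ 17 := Nat.le_of_mul_le_mul_left h10 (by norm_num)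
  omega

theorem QNU : QNU_stmt := by
  intro c hc
  refine ⟨c * 2 ^ 16 * (c * 2 ^ 33) ^ 16, fun n hn0 e s hn hs => ?_⟩
  obtain ⟨hE, hle⟩ := QNU_nat c n e hc hn0 hn
  generalize 2 ^ e = E at hE hle hs
  obtain ⟨d, rfl⟩ : ∃ d, E = d + (c + 1) := ⟨E - (c + 1), by omega⟩
  rw [Nat.add_sub_cancel] at hle
  have h1 : 2 ^ d ≤ s := by
    have h2 : 2 ^ (d + (c + 1)) = 2 ^ c * (2 * 2 ^ d) := by ring
    have h3 : c < 2 ^ c := Nat.lt_two_pow_self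
    have h4 : c * (s + 1) ≤ 2 ^ c * (s + 1) := Nat.mul_le_mul_right _ h3.le
    have h5 : 2 ^ c * (2 * 2 ^ d) ≤ 2 ^ c * (s + 1) := by
      rw [← h2]
      exact hs.trans h4
    have h6 : 2 * 2 ^ d ≤ s + 1 := Nat.le_of_mul_le_mul_left h5 (by positivity)
    have h7 : 1 ≤ 2 ^ d := Nat.one_le_two_pow
    omega
  have h8 : (n : ℝ) ^ (1 / 17 : ℝ) ≤ (d : ℝ) := by
    have h9 : (n : ℝ) ≤ (d : ℝ) ^ 17 := by exact_mod_cast hle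
    calc (n : ℝ) ^ (1 / 17 : ℝ) ≤ ((d : ℝ) ^ 17) ^ (1 / 17 : ℝ) :=
          Real.rpow_le_rpow (Nat.cast_nonneg n) h9 (by norm_num)
      _ = (d : ℝ) := by
          rw [← Real.rpow_natCast, ← Real.rpow_mul (Nat.cast_nonneg d)]
          norm_num
  calc (2 : ℝ) ^ ((n : ℝ) ^ (1 / 17 : ℝ)) ≤ (2 : ℝ) ^ (d : ℝ) :=
        Real.rpow_le_rpow_of_exponent_le (by norm_num) h8
    _ = (2 : ℝ) ^ d := Real.rpow_natCast 2 d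
    _ ≤ (s : ℝ) := by exact_mod_cast h1

end Pool.Agent.PB
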